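import Mathlib
import Pool.Agent.H52.CantorSlices

/-!
# Semilocalizability of Hausdorff measures on the unit interval and cardinal invariants

For every exponent `0 < d < 1` there are a self-similar Cantor set `C` with
`0 < H^d(C) < ∞` and an integer `N` such that `H^d(C ∩ (x + C/N)) = 0` for every real `x`. If
`E` were a supremum (modulo locally null sets) of the family of sets `z + C`, `z ∈ C/N`, then `E`
would contain almost all of every `z + C` and almost nothing of every `t + C/N`, `t ∈ C`. This is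
impossible when `non(N) < cov(N)`. No product structure is used, so that the exponent is free.
-/

open MeasureTheory Measure Set Filter Topology
open scoped ENNReal NNReal

namespace Pool.Agent.Results.MP_09a4e8_an.CovLeNon

open Pool.Agent.H52.SL

/-- A set is locally null for the outer measure `m`: it is Carathéodory measurable and meets every
Carathéodory measurable set of finite measure in a set of measure zero. -/
def LocNull {X : Type} (m : OuterMeasure X) (Z : Set X) : Prop :=
  m.IsCaratheodory Z ∧ ∀ F : Set X, m.IsCaratheodory F → m F < ∞ → m (Z ∩ F) = 0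

/-- The measure space given by the outer measure `m` and its Carathéodory measurable sets is
semilocalizable: every family `S` of measurable sets has a supremum `E` modulo locally null sets,
that is, the quotient of the algebra of measurable sets by the locally null sets is order
complete. -/
def Semilocalizable {X : Type} (m : OuterMeasure X) : Prop :=
  ∀ S : Set (Set X), (∀ A ∈ S, m.IsCaratheodory A) →
    ∃ E : Set X, m.IsCaratheodory E ∧ (∀ A ∈ S, LocNull m (A \ E)) ∧
      ∀ G : Set X, m.IsCaratheodory G → (∀ A ∈ S, LocNull m (A \ G)) → LocNull m (E \ G)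

/-- The `d`-dimensional Hausdorff outer measure on the subsets of `[0,1]`. -/
noncomputable def Hd (d : ℝ) : OuterMeasure (Icc (0:ℝ) 1) :=
  (μH[d] : Measure (Icc (0:ℝ) 1)).toOuterMeasure

/-- The least cardinality of a set of reals that is not Lebesgue null. -/
noncomputable def nonN : Cardinal.{0} :=
  sInf {κ | ∃ S : Set ℝ, Cardinal.mk S = κ ∧ volume S ≠ 0}

/-- The least cardinality of a family of Lebesgue null sets covering the real line. -/
noncomputable def covN : Cardinal.{0} :=
  sInf {κ | ∃ F : Set (Set ℝ), Cardinal.mk F = κ ∧ (∀ A ∈ F, volume A = 0) ∧ ⋃₀ F = univ}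

lemma Hd_apply (d : ℝ) (s : Set (Icc (0:ℝ) 1)) : Hd d s = μH[d] s := rfl

lemma isCar {d : ℝ} {s : Set (Icc (0:ℝ) 1)} (hs : MeasurableSet s) : (Hd d).IsCaratheodory s :=
  (le_toOuterMeasure_caratheodory (μH[d] : Measure (Icc (0:ℝ) 1))) s hs

section proof

variable {N : ℕ} {ρ d : ℝ} (h : Par N ρ d)
include h

open Par

/-- The set separating the vertical from the horizontal slices. -/
lemma exists_sep (hS : Semilocalizable (Hd d)) : ∃ E : Set (Icc (0:ℝ) 1),
    (∀ b : ℕ → Fin N, μH[d] (V ρ b \ E) = 0) ∧ ∀ a : ℕ → Fin N, μH[d] (E ∩ H ρ a) = 0 := by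
  obtain ⟨E, hE, hub, hmin⟩ := hS (range (V ρ : (ℕ → Fin N) → Set (Icc (0:ℝ) 1))) (by
    rintro _ ⟨b, rfl⟩
    exact isCar (h.V_meas b))
  refine ⟨E, fun b => ?_, fun a => ?_⟩
  · have h1 := (hub (V ρ b) ⟨b, rfl⟩).2 (V ρ b) (isCar (h.V_meas b)) (h.V_finite b)
    rw [Hd_apply] at h1
    rwa [inter_eq_left.2 sdiff_subset] at h1
  · have h1 := hmin (E \ H ρ a) (OuterMeasure.isCaratheodory_sdiff _ hE (isCar (h.H_meas a))) (by
      rintro _ ⟨b, rfl⟩
      have h2 : V ρ b \ (E \ H ρ a) = (V ρ b \ E) ∪ (V ρ b ∩ H ρ a) := by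
        ext x
        simp only [Set.mem_sdiff, mem_union, mem_inter_iff]
        tauto
      have h3 : μH[d] (V ρ b \ E) = 0 := by
        have h1 := (hub (V ρ b) ⟨b, rfl⟩).2 (V ρ b) (isCar (h.V_meas b)) (h.V_finite b)
        rw [Hd_apply] at h1
        rwa [inter_eq_left.2 sdiff_subset] at h1
      refine ⟨OuterMeasure.isCaratheodory_sdiff _ (isCar (h.V_meas b))
        (OuterMeasure.isCaratheodory_sdiff _ hE (isCar (h.H_meas a))), fun F _ _ => ?_⟩
      rw [Hd_apply]
      apply measure_mono_null inter_subset_left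
      rw [h2]
      exact measure_union_null h3 (h.VH_null a b))
    have h2 := h1.2 (H ρ a) (isCar (h.H_meas a)) (h.H_finite a)
    rw [Hd_apply] at h2
    have h3 : E \ (E \ H ρ a) ∩ H ρ a = E ∩ H ρ a := by
      ext x
      simp only [Set.mem_sdiff, mem_inter_iff]
      tauto
    rwa [h3] at h2

theorem cov_le_non (hS : Semilocalizable (Hd d)) : covN ≤ nonN := by
  obtain ⟨E, hV, hH⟩ := exists_sep h hS
  have hN1 : 1 < N := h.hN
  have : NeZero N := ⟨by omega⟩
  have hne : {κ | ∃ S : Set ℝ, Cardinal.mk S = κ ∧ volume S ≠ 0}.Nonempty :=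
    ⟨_, univ, rfl, by simp⟩
  obtain ⟨Z, hZκ, hZ⟩ := csInf_mem hne
  have hnon : nonN = Cardinal.mk Z := hZκ.symm
  let b : Z → ℕ → Fin N := fun z => Real.digits (Int.fract (z:ℝ)) N
  have hb : ∀ z : Z, Real.ofDigits (b z) = Int.fract (z:ℝ) := fun z =>
    Real.ofDigits_digits hN1 ⟨Int.fract_nonneg _, Int.fract_lt_one _⟩
  let T : Z → Set (ℕ → Fin N) := fun z => {a | g ρ a (b z) ∉ E}
  have hT : ∀ z, volume (Real.ofDigits '' T z) = 0 := by
    intro z
    apply h.null_left (T z) (b z)
    refine measure_mono_null ?_ (hV (b z))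
    rintro _ ⟨a, ha, rfl⟩
    exact ⟨⟨a, rfl⟩, ha⟩
  have hZinf : Cardinal.aleph0 ≤ Cardinal.mk Z := by
    by_contra hlt
    rw [not_le, Cardinal.lt_aleph0_iff_set_finite] at hlt
    exact hZ (hlt.measure_zero volume)
  let 𝓕 : Set (Set ℝ) := range (fun zn : Z × ℤ =>
    (fun x : ℝ => x + (zn.2 : ℝ)) '' (Real.ofDigits '' T zn.1))
  have hcard : Cardinal.mk 𝓕 ≤ Cardinal.mk Z := by
    refine Cardinal.mk_range_le.trans ?_
    rw [Cardinal.mk_prod, Cardinal.lift_id, Cardinal.lift_id, Cardinal.mk_int,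
      Cardinal.mul_aleph0_eq hZinf]
  have hnull : ∀ A ∈ 𝓕, volume A = 0 := by
    rintro _ ⟨⟨z, n⟩, rfl⟩
    simp only [image_add_right, measure_preimage_add_right]
    exact hT z
  by_cases hcov : ⋃₀ 𝓕 = univ
  · rw [hnon]
    have hmem : Cardinal.mk 𝓕 ∈ {κ : Cardinal.{0} | ∃ F : Set (Set ℝ), Cardinal.mk F = κ ∧
        (∀ A ∈ F, volume A = 0) ∧ ⋃₀ F = univ} := ⟨𝓕, rfl, hnull, hcov⟩
    exact (csInf_le' hmem).trans hcard
  · exfalso
    obtain ⟨y, hy⟩ := (ne_univ_iff_exists_notMem _).1 hcov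
    let a : ℕ → Fin N := Real.digits (Int.fract y) N
    have ha : Real.ofDigits a = Int.fract y :=
      Real.ofDigits_digits hN1 ⟨Int.fract_nonneg _, Int.fract_lt_one _⟩
    have haE : ∀ z : Z, g ρ a (b z) ∈ E := by
      intro z
      by_contra hz
      apply hy
      refine mem_sUnion.2 ⟨_, ⟨(z, ⌊y⌋), rfl⟩, Real.ofDigits a, ⟨a, hz, rfl⟩, ?_⟩
      simp only [ha]
      exact Int.fract_add_floor y
    have h1 : volume (Real.ofDigits '' (range b)) = 0 := by
      apply h.null_right (range b) a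
      refine measure_mono_null ?_ (hH a)
      rintro _ ⟨_, ⟨z, rfl⟩, rfl⟩
      exact ⟨haE z, ⟨b z, rfl⟩⟩
    apply hZ
    have h2 : Z ⊆ ⋃ n : ℤ, (fun x : ℝ => x + (n : ℝ)) '' (Real.ofDigits '' (range b)) := by
      intro z hz
      refine mem_iUnion.2 ⟨⌊z⌋, Int.fract z, ⟨b ⟨z, hz⟩, ⟨⟨z, hz⟩, rfl⟩, hb ⟨z, hz⟩⟩, ?_⟩
      exact Int.fract_add_floor z
    refine measure_mono_null h2 ?_
    rw [measure_iUnion_null_iff]
    intro n
    simp only [image_add_right, measure_preimage_add_right]
    exact h1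

end proof

/-- For every `0 < d < 1`: if `([0,1], 𝒜, H^d)` is semilocalizable then `cov(N) ≤ non(N)`. -/
theorem result (d : ℝ) (h0 : 0 < d) (h1 : d < 1) (hS : Semilocalizable (Hd d)) :
    covN ≤ nonN := by
  obtain ⟨N, ρ, h⟩ := exists_par h0 h1
  exact cov_le_non h hS

end Pool.Agent.Results.MP_09a4e8_an.CovLeNon
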